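import Pool.Agent.N842.TY.Srf

/-!
# The analytic generalized Nagao conjecture for almost all pencils of plane curves over a number field

Let `K` be a number field and `ω_0, ..., ω_(g-1)` elements of its ring of integers such that `1` is a linear combination of them with
integral coefficients, for instance an integral basis.  Let `G` be a monic polynomial of degree `d` with integral coefficients.
We consider the pencils of plane curves of degree `d` with the equations

  `x ^ d G(z / x) + ∑ c_α x ^ α_0 z ^ α_1 t ^ α_2 = 0`,   `α_0 + α_1 < d`, `α_2 ≤ E`,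

over the line with the coordinate `t`; the coefficients are `c_α = ∑ m_(α,j) ω_j` with integers `m_(α,j) ≥ 0` which arise from
arbitrary integers by changing a few digits.

Let `G` be separable and `d ≥ 3`.  The points at infinity of the generic fibre `X / K(t)` are the roots of `G`; they give a group of
divisor classes of degree `0` of rank `s - 1` over `K(t)` for a general pencil of the family, where `s` is the number of the
irreducible factors of `G` over `K`, and `s - 1` is the rank of the group of the question for a general pencil (we do not prove this).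

For almost all pencils the theorem gives

* the size `T ^ (1/2 + η + δ - Re z)` of the sums over `T < q_v ≤ T'` of the Dirichlet series with the coefficients
  `ψ(v) (𝔄_v - (1 - n_v)) log(q_v)`, for all `z` with `Re z ≥ 1/2 + η + δ` and `|Im z| ≤ T ^ B`, and for all `ψ` of a given set of
  systems of complex numbers, for instance the traces of the Frobenius elements in Artin representations of `K` divided by their degrees;
* the residue `-(s - 1)` of the Dirichlet series of the conjecture, as far as it can be seen by the sums over `y < q_v ≤ T'`.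

Arbitrary numbers `ξ_v` with `|ξ_v| ≤ C₀ q_v ^ (-1/2)` may be added to the `𝔄_v`, for instance the part of `𝔄_v` which comes from the
fibre at `t = ∞`.  For `v` of good reduction, and if the surface has irregularity `0` (so that the trace `B` is `0`),
`|𝔄_v - (1 - n_v)| ≤ C` by Deligne's theorem, where `C` depends only on `d` and `E`, so that the truncation below does not change
`𝔄_v` if `q_v` is larger than a number which depends only on `d`, `E` and `η > 0`.
-/

set_option autoImplicit false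

namespace Pool.Agent.Results.MP_3d3918_nt.PlanePencils

open Finset NumberField IsDedekindDomain

/-- The exponents `(α_0, α_1, α_2)` with `α_0 + α_1 < d` and `α_2 ≤ E`. -/
abbrev Exponent (d E : ℕ) : Type := {α : Fin 3 → ℕ // α 0 + α 1 < d ∧ α 2 ≤ E}

/-- The coefficients `c_i = ∑ m_(i,j) ω_j`. -/
def coeff {R : Type} [CommRing R] {g D : ℕ} (ω : Fin g → R) (m : Fin (D * g) → ℕ) (i : Fin D) : R :=
  ∑ j, (m (finProdFinEquiv (i, j)) : R) * ω j

/-- The number of the roots of `G` in the ring `κ`. -/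
noncomputable def rootCount (G : Polynomial ℤ) (κ : Type) [CommRing κ] : ℕ :=
  Nat.card {r : κ // G.eval₂ (Int.castRingHom κ) r = 0}

/-- The number of the (monic) irreducible factors of `G` over the field `K`. -/
noncomputable def factorCount (G : Polynomial ℤ) (K : Type) [Field K] : ℕ :=
  Nat.card {P : Polynomial K // P.Monic ∧ Irreducible P ∧ P ∣ G.map (Int.castRingHom K)}

section
variable (G : Polynomial ℤ) {E D : ℕ} (e : Fin D ≃ Exponent G.natDegree E)

/-- The value at `(x, z, t)` of the polynomial `x ^ d G(z / x) + ∑ u_k x ^ α_0 z ^ α_1 t ^ α_2` with `α = e k`, where `d` is the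
degree of `G`, and `e` is an enumeration of the exponents. -/
def value {κ : Type} [CommRing κ] (u : Fin D → κ) (x z t : κ) : κ :=
  ∑ j ∈ range (G.natDegree + 1), (G.coeff j : κ) * (x ^ (G.natDegree - j) * z ^ j) +
    ∑ k, u k * (x ^ (e k).1 0 * z ^ (e k).1 1 * t ^ (e k).1 2)

/-- The average over all `t` in the finite field `κ` with `q` elements of the traces `q + 1 - #(fibre at t)`, where the fibre at `t`
is the plane curve of degree `d`: its points are the zeros `(x, z)` of the polynomial, and the points at infinity, which are the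
roots of `G` in `κ`. -/
noncomputable def average {κ : Type} [CommRing κ] (u : Fin D → κ) : ℝ :=
  (∑ᶠ t : κ, ((Nat.card κ : ℝ) + 1 - (Nat.card {P : κ × κ // value G e u P.1 P.2 t = 0} + rootCount G κ : ℕ))) / Nat.card κ

end

section
variable {K : Type} [Field K] [NumberField K]

/-- The sum `∑ ψ(v) F(v) log(q_v) q_v ^ (-z)` over the prime ideals with `T < q_v ≤ T'`. -/
noncomputable def series (ψ : HeightOneSpectrum (𝓞 K) → ℂ) (F : HeightOneSpectrum (𝓞 K) → ℝ) (T T' : ℕ) (z : ℂ) : ℂ :=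
  ∑ᶠ v ∈ {v : HeightOneSpectrum (𝓞 K) | T < Ideal.absNorm v.asIdeal ∧ Ideal.absNorm v.asIdeal ≤ T'},
    ψ v * ((F v * Real.log (Ideal.absNorm v.asIdeal) : ℝ) : ℂ) * (Ideal.absNorm v.asIdeal : ℂ) ^ (-z)

variable {g : ℕ} (ω : Fin g → 𝓞 K) (G : Polynomial ℤ) {E D : ℕ} (e : Fin D ≃ Exponent G.natDegree E)

/-- The average `𝔄_v` of the traces of the fibres of the reduction of the pencil modulo `v`. -/
noncomputable def fibreAverage (m : Fin (D * g) → ℕ) (v : HeightOneSpectrum (𝓞 K)) : ℝ :=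
  average G e (fun k => Ideal.Quotient.mk v.asIdeal (coeff ω m k))

/-- The number `1 - n_v`, where `n_v` is the number of the points at infinity modulo `v`. -/
noncomputable def centre (v : HeightOneSpectrum (𝓞 K)) : ℝ := 1 - rootCount G (𝓞 K ⧸ v.asIdeal)

open Classical in
/-- `𝔄_v` if `|𝔄_v - (1 - n_v)| ≤ q_v ^ η`, and `1 - n_v` otherwise. -/
noncomputable def truncated (η : ℝ) (m : Fin (D * g) → ℕ) (v : HeightOneSpectrum (𝓞 K)) : ℝ :=
  if |fibreAverage ω G e m v - centre G v| ≤ (Ideal.absNorm v.asIdeal : ℝ) ^ η then fibreAverage ω G e m v else centre G v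

end

/-- The digit number `i` (counted from the right, beginning with `0`) of `n` in base `b`. -/
def digit (b i n : ℕ) : ℕ := n / b ^ i % b

/-- The number which arises from the number `N` with at most `L` digits in base `b`, if for every `i ∈ S`
the digit number `i` is replaced by `f i`. -/
def change (b L N : ℕ) (f : ℕ → ℕ) (S : Finset ℕ) : ℕ :=
  ∑ i ∈ range L, (if i ∈ S then f i else digit b i N) * b ^ i

open Classical in
/-- The number of the choices of `r j` of `L j` positions for all `j` for which the tuple of the numbers obtained by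
changing the digits of the `N j` at the chosen positions (according to `f j`) does not have the property `P`. -/
noncomputable def exceptions {d : ℕ} (b : ℕ) (L r N : Fin d → ℕ) (f : Fin d → ℕ → ℕ) (P : (Fin d → ℕ) → Prop) : ℕ :=
  ((Fintype.piFinset (fun j => powersetCard (r j) (range (L j)))).filter
    (fun S => ¬ P (fun j => change b (L j) (N j) (f j) (S j)))).card

lemma exc_eq {d : ℕ} (b : ℕ) (L r N : Fin d → ℕ) (f : Fin d → ℕ → ℕ) (P : (Fin d → ℕ) → Prop) :
    exceptions b L r N f P = Pool.Agent.Y57.FD.exceptions b L r N f P := rfl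

section
variable {K : Type} [Field K] [NumberField K] {g : ℕ} (ω : Fin g → 𝓞 K) (G : Polynomial ℤ) {E D : ℕ} (e : Fin D ≃ Exponent G.natDegree E)

open Classical in
lemma series_eq (ψ : HeightOneSpectrum (𝓞 K) → ℂ) (F : HeightOneSpectrum (𝓞 K) → ℝ) (T T' : ℕ) (z : ℂ) :
    series ψ F T T' z = ∑ v ∈ Pool.Agent.N842.HS.VT K T' \ Pool.Agent.N842.HS.VT K T,
      ψ v * ((F v * Real.log (Ideal.absNorm v.asIdeal) : ℝ) : ℂ) * (Ideal.absNorm v.asIdeal : ℂ) ^ (-z) := by
  have h2 : {v : HeightOneSpectrum (𝓞 K) | T < Ideal.absNorm v.asIdeal ∧ Ideal.absNorm v.asIdeal ≤ T'} =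
      ((Pool.Agent.N842.HS.VT K T' \ Pool.Agent.N842.HS.VT K T : Finset (HeightOneSpectrum (𝓞 K))) : Set (HeightOneSpectrum (𝓞 K))) := by
    ext v
    rw [mem_coe, mem_sdiff, Pool.Agent.N842.HS.mem_VT, Pool.Agent.N842.HS.mem_VT, Set.mem_ofPred_eq]
    omega
  unfold series
  rw [h2, finsum_mem_coe_finset]

lemma truncated_eq (η : ℝ) (m : Fin (D * g) → ℕ) (v : HeightOneSpectrum (𝓞 K)) :
    truncated ω G e η m v - centre G v = Pool.Agent.N842.TX.Fv (d := G.natDegree) e G η v (Pool.Agent.N842.HS.cf ω m) := by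
  classical
  have h1 : Pool.Agent.N842.TX.Fv (d := G.natDegree) e G η v (Pool.Agent.N842.HS.cf ω m) =
      Pool.Agent.N842.TX.tc ((Nat.card (Pool.Agent.N842.HS.Res v) : ℝ) ^ η) (fibreAverage ω G e m v - 1 + rootCount G (𝓞 K ⧸ v.asIdeal)) := rfl
  have h2 : fibreAverage ω G e m v - 1 + rootCount G (𝓞 K ⧸ v.asIdeal) = fibreAverage ω G e m v - centre G v := by
    unfold centre
    ring
  rw [h1, h2, Pool.Agent.N842.HS.card_Res]
  unfold truncated Pool.Agent.N842.TX.tc
  split_ifs with h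
  · rfl
  · rw [sub_self]

/-- **The analytic generalized Nagao conjecture for almost all pencils of plane curves.**  Let `G` be monic of degree `d` with `s`
irreducible factors over `K`, `h` even with `2 ≤ h ≤ min(d, E + 1)`.  Take arbitrary numbers `N_j < β ^ (L_j)`, and change the
digits at `r_j` of the `L_j` places of each.  Then for all but a proportion `y ^ (-A)` of the choices of the places, for all systems
`ξ` with `|ξ_v| ≤ C₀ q_v ^ (-1/2)` and for all `T`, `T'` with `y ≤ T ≤ T' ≤ exp(c r_j)`,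

* `|∑_(T < q_v ≤ T') ψ(v) (𝔄'_v + ξ_v - (1 - n_v)) log(q_v) q_v ^ (-z)| ≤ T ^ (1/2 + 1/(2h) + δ - Re z)` for all `ψ` of a set with at
  most `y ^ B` elements, and for all complex `z` with `Re z ≥ 1/2 + 1/(2h) + δ` and `|Im z| ≤ T ^ B`;
* `|(σ - 1) ∑_(y < q_v ≤ T') (𝔄'_v + ξ_v) log(q_v) q_v ^ (-σ) + (s - 1)| ≤ ε` for all `σ` with
  `M / log T' ≤ σ - 1 ≤ 1 / (M log y)`. -/
theorem result (hG : G.Monic) (hω : (1 : 𝓞 K) ∈ Submodule.span ℤ (Set.range ω)) (h : ℕ) (hh : 2 ≤ h) (heven : Even h)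
    (hd : h ≤ G.natDegree) (hE : h ≤ E + 1) (β : ℕ) (hβ : 2 ≤ β) (C₀ : ℝ) (hC₀ : 0 ≤ C₀) (δ ε : ℝ) (hδ : 0 < δ) (hε : 0 < ε) (A B : ℕ) :
    ∃ M : ℝ, 1 ≤ M ∧ ∃ c : ℝ, 0 < c ∧ ∃ y₀ : ℕ, ∀ (L r : Fin (D * g) → ℕ) (y : ℕ), (∀ i, 2 * r i ≤ L i) → y₀ ≤ y →
    ∀ N : Fin (D * g) → ℕ, (∀ i, N i < β ^ L i) →
    ∀ f : Fin (D * g) → ℕ → ℕ, (∀ i j, f i j < β ∧ f i j ≠ digit β j (N i)) →
    ∀ Ψ : Set (HeightOneSpectrum (𝓞 K) → ℂ), Ψ.Finite → Ψ.ncard ≤ y ^ B → (∀ ψ ∈ Ψ, ∀ v, ‖ψ v‖ ≤ 1) →
    (exceptions β L r N f (fun m => ∀ ξ : HeightOneSpectrum (𝓞 K) → ℝ, (∀ v, |ξ v| ≤ C₀ * (Ideal.absNorm v.asIdeal : ℝ) ^ (-(1 / 2) : ℝ)) →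
      ∀ T T' : ℕ, y ≤ T → T ≤ T' → (∀ i, (T' : ℝ) ≤ Real.exp (c * r i)) →
      (∀ ψ ∈ Ψ, ∀ z : ℂ, 1 / 2 + 1 / (2 * (h : ℝ)) + δ ≤ z.re → |z.im| ≤ (T : ℝ) ^ B →
        ‖series ψ (fun v => truncated ω G e (1 / (2 * (h : ℝ))) m v + ξ v - centre G v) T T' z‖ ≤ (T : ℝ) ^ (1 / 2 + 1 / (2 * (h : ℝ)) + δ - z.re)) ∧
      (∀ σ : ℝ, M / Real.log T' ≤ σ - 1 → σ - 1 ≤ 1 / (M * Real.log y) →
        ‖((σ : ℂ) - 1) * series (fun _ => 1) (fun v => truncated ω G e (1 / (2 * (h : ℝ))) m v + ξ v) y T' σ +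
          ((factorCount G K : ℂ) - 1)‖ ≤ ε)) : ℝ) ≤
        1 / (y : ℝ) ^ A * ∏ i, ((L i).choose (r i) : ℝ) := by
  classical
  obtain ⟨hη0, hη1⟩ := Pool.Agent.N842.TY.eta_bounds hh
  obtain ⟨M, hM, c, hc, y₀, hmain⟩ := Pool.Agent.N842.TY.edge (K := K) (Pool.Agent.N842.TY.penSys (d := G.natDegree) e G hh heven hd hE)
    (Pool.Agent.N842.TY.one_le_pen e hh hd hE) hη0 hη1 (fun v => (1 : ℝ) - Pool.Agent.N842.TX.ni G (Pool.Agent.N842.HS.Res v))
    _ (Pool.Agent.N842.TY.pen_lim G hG) C₀ hC₀ β g ω hω hβ δ ε hδ hε A B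
  refine ⟨M, hM, c, hc, y₀, fun L r y hrL hy N hN f hf Ψ hΨ hΨ2 hΨ1 => ?_⟩
  rw [exc_eq]
  refine hmain L r y hrL hy N hN f hf Ψ hΨ hΨ2 hΨ1 _ fun m hm ξ hξ T T' hyT hTT hTr => ?_
  have hξ' : ∀ v, |ξ v| ≤ C₀ * (Ideal.absNorm v.asIdeal : ℝ) ^ (-(1 / 2 - 1 / (2 * (h : ℝ)))) := by
    intro v
    refine (hξ v).trans (mul_le_mul_of_nonneg_left ?_ hC₀)
    have hq0 : Ideal.absNorm v.asIdeal ≠ 0 := by
      rw [Ne, Ideal.absNorm_eq_zero_iff]
      exact v.ne_bot
    have hq1 : (1 : ℝ) ≤ (Ideal.absNorm v.asIdeal : ℕ) := by exact_mod_cast Nat.one_le_iff_ne_zero.2 hq0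
    exact Real.rpow_le_rpow_of_exponent_le hq1 (by linarith)
  obtain ⟨h1, h2⟩ := hm ξ hξ' T' hTr
  have hF : ∀ v, (Pool.Agent.N842.TY.penSys (K := K) (d := G.natDegree) e G hh heven hd hE).F v (Pool.Agent.N842.HS.cf ω m) =
      truncated ω G e (1 / (2 * (h : ℝ))) m v - centre G v := fun v => (truncated_eq ω G e _ m v).symm
  constructor
  · intro ψ hψ z hz1 hz2
    refine le_trans (le_of_eq ?_) (h1 ψ hψ T hyT hTT z hz1 hz2)
    rw [series_eq]
    congr 1
    refine sum_congr rfl fun v _ => ?_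
    rw [hF]
    congr 4
    ring
  · intro σ hσ1 hσ2
    have h3 := h2 (hyT.trans hTT) (σ - 1) hσ1 hσ2
    have h4 : ((σ : ℂ) - 1) * series (fun _ => 1) (fun v => truncated ω G e (1 / (2 * (h : ℝ))) m v + ξ v) y T' σ + ((factorCount G K : ℂ) - 1) =
        (((σ - 1) * ∑ v ∈ Pool.Agent.N842.HS.VT K T' \ Pool.Agent.N842.HS.VT K y,
          ((((1 : ℝ) - Pool.Agent.N842.TX.ni G (Pool.Agent.N842.HS.Res v)) +
            ((Pool.Agent.N842.TY.penSys (K := K) (d := G.natDegree) e G hh heven hd hE).F v (Pool.Agent.N842.HS.cf ω m) + ξ v)) *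
            Real.log (Ideal.absNorm v.asIdeal)) * (Ideal.absNorm v.asIdeal : ℝ) ^ (-(1 + (σ - 1))) - -((Pool.Agent.N842.TX.nf K G : ℝ) - 1) : ℝ) : ℂ) := by
      rw [series_eq, Complex.ofReal_sub, Complex.ofReal_mul, Complex.ofReal_sum]
      have h5 : ∀ v : HeightOneSpectrum (𝓞 K), (1 : ℂ) * (((truncated ω G e (1 / (2 * (h : ℝ))) m v + ξ v) * Real.log (Ideal.absNorm v.asIdeal) : ℝ) : ℂ) *
          (Ideal.absNorm v.asIdeal : ℂ) ^ (-(σ : ℂ)) =
          (((((1 : ℝ) - Pool.Agent.N842.TX.ni G (Pool.Agent.N842.HS.Res v)) +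
            ((Pool.Agent.N842.TY.penSys (K := K) (d := G.natDegree) e G hh heven hd hE).F v (Pool.Agent.N842.HS.cf ω m) + ξ v)) *
            Real.log (Ideal.absNorm v.asIdeal)) * (Ideal.absNorm v.asIdeal : ℝ) ^ (-(1 + (σ - 1))) : ℝ) := by
        intro v
        rw [hF]
        have h6 : (1 : ℝ) - Pool.Agent.N842.TX.ni G (Pool.Agent.N842.HS.Res v) = centre G v := rfl
        have h7 : (Ideal.absNorm v.asIdeal : ℂ) ^ (-(σ : ℂ)) = (((Ideal.absNorm v.asIdeal : ℝ) ^ (-(1 + (σ - 1))) : ℝ) : ℂ) := by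
          rw [Complex.ofReal_cpow (Nat.cast_nonneg _)]
          push_cast
          congr 1
          ring
        rw [h6, h7, one_mul, ← Complex.ofReal_mul]
        congr 2
        ring
      rw [sum_congr rfl fun v _ => h5 v]
      have h8 : (factorCount G K : ℕ) = Pool.Agent.N842.TX.nf K G := rfl
      rw [h8]
      push_cast
      ring
    rw [h4, Complex.norm_real, Real.norm_eq_abs]
    exact h3

end

end Pool.Agent.Results.MP_3d3918_nt.PlanePencils
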