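import Pool.Agent.N881.GW.V7

/-!
# The residue in the analytic Nagao conjecture, read off from the primes near `x`

`f : 𝒳 → 𝒴` is a fibration over a number field `k`, `m = dim 𝒴`, `R` is a finite set of primes containing
the bad ones.  For `v ∉ R` the type `Y v` is the finite set `𝒴_v(𝔽_v)`, `t v y` is the trace of Frobenius on
`H¹` of the fibre over `y` and `b v` is the trace for the abelian variety `B`.  By the theorem of
Deligne the numbers `𝔄*_v = q_v^{-m} ∑_y t v y - b v` are bounded, and the analogous averages `𝔅_v`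
for `H²` are `O(q_v)`.  The question is whether the residue at `s = 1` of `∑ 𝔄*_v log(q_v) q_v^{-s}`
exists and equals `-r`, `r` the rank; in the equivalent fibration form of the Tate conjecture it is the
residue at `s = 2` of `∑ 𝔅_v log(q_v) q_v^{-s}`.
-/

set_option autoImplicit false

namespace Pool.Agent.Results.MP_3d3918_nt.ResidueCriterion

open NumberField IsDedekindDomain Filter Topology

section

variable {K : Type} [Field K] [NumberField K]

/-- The fibre average `q_v^{-m} ∑_y t v y - b v`. -/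
noncomputable def fibreAverage (Y : HeightOneSpectrum (𝓞 K) → Type) [∀ v, Fintype (Y v)]
    (t : ∀ v, Y v → ℝ) (m : ℕ) (b : HeightOneSpectrum (𝓞 K) → ℝ)
    (v : HeightOneSpectrum (𝓞 K)) : ℝ :=
  (∑ y, t v y) / (Ideal.absNorm v.asIdeal : ℝ) ^ m - b v

open Classical in
/-- The series `∑_{v ∉ R} c_v log(q_v) q_v^{-s}`. -/
noncomputable def series (c : HeightOneSpectrum (𝓞 K) → ℝ) (R : Finset (HeightOneSpectrum (𝓞 K)))
    (s : ℂ) : ℂ :=
  ∑' v : HeightOneSpectrum (𝓞 K), if v ∈ R then 0 else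
    (c v : ℂ) * (Real.log (Ideal.absNorm v.asIdeal) : ℂ) * (Ideal.absNorm v.asIdeal : ℂ) ^ (-s)

open Classical in
/-- The average `√(A / (π log x)) ∑_{v ∉ R} c_v log(q_v) q_v^{-e} exp (-A (log (q_v / x))² / log x)`. -/
noncomputable def window (c : HeightOneSpectrum (𝓞 K) → ℝ) (R : Finset (HeightOneSpectrum (𝓞 K)))
    (e A x : ℝ) : ℝ :=
  √(A / (Real.pi * Real.log x)) * ∑' v : HeightOneSpectrum (𝓞 K), if v ∈ R then 0 else
    c v * (Real.log (Ideal.absNorm v.asIdeal) * (Ideal.absNorm v.asIdeal : ℝ) ^ (-e) *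
      Real.exp (-(A * (Real.log (Ideal.absNorm v.asIdeal) - Real.log x) ^ 2 / Real.log x)))

end

/-- `D` has the residue `ρ` at `e`: it extends meromorphically from `Re s > e` to a neighbourhood of
`e`, and `D(s) - ρ/(s - e)` is holomorphic at `e`. -/
def HasResidue (D : ℂ → ℂ) (e : ℝ) (ρ : ℤ) : Prop :=
  ∃ F : ℂ → ℂ, AnalyticAt ℂ F e ∧
    ∀ᶠ s : ℂ in 𝓝 (e : ℂ), e < s.re → D s = ρ / (s - e) + F s

/-- **The criterion.**  Let `f : 𝒳 → 𝒴` be a fibration over the number field `K`, given by the finite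
sets `Y v = 𝒴_v(𝔽_v)` and the traces of Frobenius `t v y` on `H¹` and `u v y` on `H²` of the fibres.

1. Assume `𝔄*_v = O(1)`.  For every integer `r` the following are equivalent: the series
   `∑ 𝔄*_v log(q_v) q_v^{-s}` has the residue `-r` at `s = 1`; for every `A > 0` there is an `η > 0` with
   `window(x) = -r + O(x^{-η})`, `x ≥ 2`; the same for one `A > 0`, `x → ∞`.
2. Assume `𝔅_v = O(q_v)`.  For every integer `ρ` the following are equivalent: the series
   `∑ 𝔅_v log(q_v) q_v^{-s}` has the residue `ρ` at `s = 2`; for every `A > 0` there is an `η > 0` with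
   `window(x) = ρ + O(x^{-η})`, `x ≥ 2`; the same for one `A > 0`, `x → ∞`. -/
theorem result (K : Type) [Field K] [NumberField K] (R : Finset (HeightOneSpectrum (𝓞 K)))
    (Y : HeightOneSpectrum (𝓞 K) → Type) [∀ v, Fintype (Y v)] (m : ℕ) (t u : ∀ v, Y v → ℝ)
    (b : HeightOneSpectrum (𝓞 K) → ℝ) :
    ((∃ C₀ : ℝ, ∀ v ∉ R, |fibreAverage Y t m b v| ≤ C₀) → ∀ r : ℤ, List.TFAE [
      HasResidue (series (fibreAverage Y t m b) R) 1 (-r),
      ∀ A : ℝ, 0 < A → ∃ η : ℝ, 0 < η ∧ ∃ C : ℝ, ∀ x : ℝ, 2 ≤ x →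
        |window (fibreAverage Y t m b) R 1 A x + r| ≤ C * x ^ (-η),
      ∃ A : ℝ, 0 < A ∧ ∃ η : ℝ, 0 < η ∧ ∃ C X : ℝ, ∀ x : ℝ, X ≤ x →
        |window (fibreAverage Y t m b) R 1 A x + r| ≤ C * x ^ (-η)]) ∧
    ((∃ C₀ : ℝ, ∀ v ∉ R, |fibreAverage Y u m 0 v| ≤ C₀ * (Ideal.absNorm v.asIdeal : ℝ)) →
      ∀ ρ : ℤ, List.TFAE [
      HasResidue (series (fibreAverage Y u m 0) R) 2 ρ,
      ∀ A : ℝ, 0 < A → ∃ η : ℝ, 0 < η ∧ ∃ C : ℝ, ∀ x : ℝ, 2 ≤ x →
        |window (fibreAverage Y u m 0) R 2 A x - ρ| ≤ C * x ^ (-η),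
      ∃ A : ℝ, 0 < A ∧ ∃ η : ℝ, 0 < η ∧ ∃ C X : ℝ, ∀ x : ℝ, X ≤ x →
        |window (fibreAverage Y u m 0) R 2 A x - ρ| ≤ C * x ^ (-η)]) := by
  constructor
  · rintro ⟨C₀, hC₀⟩ r
    have key := Pool.Agent.N881.GW.res_crit (e := 1) (C₀ := C₀) (R := R)
      (c := fibreAverage Y t m b) (fun v hv => by
        rw [sub_self, Real.rpow_zero, mul_one]
        exact hC₀ v hv) (-r)
    simp only [Int.cast_neg, sub_neg_eq_add] at key
    exact key
  · rintro ⟨C₀, hC₀⟩ ρ
    exact Pool.Agent.N881.GW.res_crit (e := 2) (C₀ := C₀) (R := R)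
      (c := fibreAverage Y u m 0) (fun v hv => by
        have h1 : (2 : ℝ) - 1 = 1 := by norm_num
        rw [h1, Real.rpow_one]
        exact hC₀ v hv) ρ

end Pool.Agent.Results.MP_3d3918_nt.ResidueCriterion
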