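import Pool.Agent.N19.BR.Nag
import Pool.Agent.N19.BR.AMain

/-!
# The analytic Nagao conjecture for fibrations: reduction to special base fields

`K` is a number field (`k` on the page), `L` a finite Galois extension of `K`, `S₀` a finite set of primes of
`K` and `m ≥ 1`.  There is a relation `∑ e_j [F_j] = [K]`, with coefficient `1` on the right, between the
permutation characters of finite extensions `F_j` of `K` such that the groups `Gal(L F_j / F_j)` are
hyperelementary, each for a prime number `p`, the divisors of `m` prime to `p` divide the local degrees of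
`F_j / K` at the primes above `S₀`, and `F_j` has at most two real places if `p ≠ 2` (`Pool.Agent.N19.BR.Rel`, ...,
`Main`, `AMain`).

For a fibration over `K` we compare the averages of the Frobenius traces of the fibres for its base changes to the
fields `F_j`.  The relation holds at each prime `v` of `K` and for each residue degree: the numbers `n_j(v, d)` of
primes of `F_j` above `v` with residue degree `d` satisfy `∑ e_j n_j(v, 1) = 1` and `∑ e_j n_j(v, d) = 0` for `d > 1`
(`Ram`, `Plc`; primes that ramify in the `F_j` included), so the relations between the Dirichlet series and between the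
partial sums are exact (`Nag`), with the dimensions of the invariants of Galois representations on the other side
(`InvRel`, `Inv`).

The definitions are in `Pool.Agent.N19.BR.NDefs`, `ADefs`, `BBDefs`, `TDefs` and `Defs`.
-/

set_option autoImplicit false

namespace Pool.Agent.Results.MP_3d3918_nt.SpecialBaseFields

open NumberField IsDedekindDomain
open Pool.Agent.N19.BR.TDef (FieldList)
open Pool.Agent.N19.BR.MDef (HyperelementaryList fixedBy)
open Pool.Agent.N19.BR.NDef

/-- **The residue formula over special base fields.**  For every finite Galois extension `L / K` of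
number fields, every finite set `S₀` of primes of `K` and `m ≥ 1` there is a finite list of number fields
`F_j ⊇ K` with integers `e_j`, such that for every `j` there is a prime number `p` for which the Galois group of
`L F_j / F_j` is `p`-hyperelementary, the divisors of `m` prime to `p` divide the local degrees of `F_j / K` at the
primes above `S₀`, and `F_j` has at most two real places if `p ≠ 2`, and such that the following holds for ALL
fibrations over `K`, with averages `A v d` (for the reduction at `v` over the extension of degree `d` of the residue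
field; so the averages over `K` are `A v 1`) and averages `a_j` over the fields `F_j`:
(1) `∑_{q_v ≤ x} A_v log q_v = ∑_j e_j ∑_{q_w ≤ x} a_j(w) log q_w` for all `x`;
(2) if `|A v d| ≤ C q_v^{κ d}`, then `∑_v A_v log q_v q_v^{-s} = ∑_j e_j ∑_w a_j(w) log q_w q_w^{-s}` for
`Re s > κ + 1`;
(3) in this case, for every representation `V` of the absolute Galois group of `K` over `ℚ`, if over all the fields
`F_j` the Dirichlet series has a residue at `κ + 1` equal to `c (dim V^{G_{F_j}} + δ_j)`, then over `K` it has a residue
at `κ + 1` equal to `c (dim V^{G_K} + ∑ e_j δ_j)`; so the residue formula over all the fields `F_j` implies it over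
`K`. -/
theorem result (K : Type) [Field K] [NumberField K] (L : Type) [Field L] [NumberField L]
    [Algebra K L] [IsGalois K L] (S₀ : Set (HeightOneSpectrum (𝓞 K))) (hS₀ : S₀.Finite) (m : ℕ)
    (hm : m ≠ 0) :
    ∃ Y : FieldList K, HyperelementaryList L S₀ m Y ∧
      ∀ (A : HeightOneSpectrum (𝓞 K) → ℕ → ℝ) (a : ∀ j, HeightOneSpectrum (𝓞 (Y.F j)) → ℝ),
        (∀ j, IsAverage A (a j)) →
      (∀ x : ℝ, partialSum (fun v => A v 1) x = ∑ j, (Y.e j : ℝ) * partialSum (a j) x) ∧
      ∀ κ : ℝ, Bounded κ A →
        (∀ s : ℂ, κ + 1 < s.re →
          series (fun v => A v 1) s = ∑ j, (Y.e j : ℂ) * series (a j) s) ∧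
        ∀ (V : Type) [AddCommGroup V] [Module ℚ V]
          (ρ : Representation ℚ Gal(AlgebraicClosure K/K) V) (c : ℤ) (δ : Fin Y.r → ℂ),
          (∀ j, ResidueFormula κ c (a j) (fixedBy ρ (Y.F j)) (δ j)) →
            ResidueFormula κ c (fun v => A v 1) (Representation.invariants ρ)
              (∑ j, (Y.e j : ℂ) * δ j) := by
  obtain ⟨Y, hY, hrel⟩ := Pool.Agent.N19.BR.hyper_list K L S₀ hS₀ m hm
  have hne : Nonempty (Fin Y.r) := Pool.Agent.N19.BR.nonempty_of_rel one_ne_zero hrel
  refine ⟨Y, hY, fun A a ha => ⟨fun x => ?_, fun κ hA => ⟨fun s hs => ?_, ?_⟩⟩⟩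
  · exact Pool.Agent.N19.BR.partial_rel (Z := fun j => (⟨Y.F j⟩ : Pool.Agent.R433.MD.Ext K))
      hrel ha x
  · exact Pool.Agent.N19.BR.series_rel (Z := fun j => (⟨Y.F j⟩ : Pool.Agent.R433.MD.Ext K))
      hrel hA ha hs
  · intro V _ _ ρ c δ hF
    exact Pool.Agent.N19.BR.nagao_rel Y.F hrel hA ha ρ c hF

end Pool.Agent.Results.MP_3d3918_nt.SpecialBaseFields
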